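import Mathlib
import Pool.Agent.H819.NC.Br

/-!
# Lelong numbers of closed strongly taming two-forms

`X` is a closed manifold of dimension `d ≥ 2` with an almost complex structure `J` which is locally
Lipschitz (for instance smooth), and `σ₀` is a smooth closed two-form, which stands for a class in
`H²(X; ℝ)`.  We consider closed two-forms `θ` in this class whose coefficients are merely
integrable and which are strongly taming: `θ(u, J u) ≥ c₀ |u|²` and
`θ(u, w)² ≤ C θ(u, J u) θ(w, J w)` almost everywhere, locally uniformly.  They need not be of type
`(1, 1)`, and they may be unbounded near every point.  The Lelong number of `θ` at `p` is the lower
limit of `r^(2 - d) ∫_{B_r(p)} |θ|` as `r → 0`.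

* The densities of every such form are bounded: it belongs to the Morrey space `L^{1, d - 2}`.  The
  set of the points with positive Lelong numbers has zero `(d - 2)`-dimensional Hausdorff measure.
* **Theorem (of Demailly–Păun type).**  The class of `σ₀` contains a symplectic form taming `J` if and
  only if it is represented by such a form `θ` whose positive Lelong numbers are contained in the union
  of
  - a set of zero two-dimensional Hausdorff measure,
  - a closed totally disconnected set near which `J` is of class `C^1`, and
  - a closed set `C n` with a filtration `C 0 ⊆ C 1 ⊆ … ⊆ C n`, where `C 0` consists of closed
    `J`-holomorphic curves, possibly singular and intersecting each other, on each of which the class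
    of `σ₀` is positive (the restricted class contains an area form, in other words its integral over
    each curve is positive), and where `C (i + 1) \ C i` is a `J`-holomorphic submanifold of
    `X \ C i` of any dimension along which some smooth closed form in the class is positive on the
    complex tangent lines.
  Each of the three sets may be empty.
* If `d ≤ 4`, then the class of `σ₀` contains a symplectic form taming `J` if and only if it is
  represented by such a form `θ`: there is no condition on the singularities.

For compact complex manifolds and Kähler currents the second statement goes back to Păun and to
Demailly and Păun: a class which contains a Kähler current is Kähler if and only if its restrictions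
to the irreducible components of the Lelong sublevel sets are; on curves this means that the degrees
are positive.  The condition along the curves is necessary: non-Kähler Moishezon manifolds carry such
forms, with positive Lelong numbers along a complex curve only, in classes which contain no symplectic
form taming `J`.

The first part is proved by testing the closedness of `θ` with suitable vector fields (an almost
monotonicity formula for the density ratios) and by a covering argument.

For the second part, we first construct a smooth closed form in the class which is positive on the
complex lines tangent to the curves, including the lines near their singular points: the class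
contains a form which vanishes near the singular points; on the normalization of the curves the area
is moved away from them by a radial cut-off of a primitive; the correction is extended from the
curves to `X`; and a small exact form which tames `J` near the singular points is added.

Suppose that the class contains no symplectic form taming `J`.  By the theorem of
Hahn and Banach there is a nonzero closed structure measure `ν` (a finite measure on the bundle of the
unit vectors `u`, which stands for the functional `σ ↦ ∫ σ(u, J u) dν` and annihilates the exact
forms) with `∫ σ₀(u, J u) dν ≤ 0`.  The restrictions of `ν` to the strata and to the
complement of `C n` are again closed: this is proved with the cut-off functions of El Mir and Skoda,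
which are functions of `log (ρ + ε²)`, where `ρ` is the squared norm of a defining function which is
pseudoholomorphic along the stratum.  The restriction to a stratum is carried by the vectors tangent
to it, so the value of `σ₀` on it is positive if it is not zero.  The restriction `ν₀` to the
complement of `C n` does not charge the sets of zero two-dimensional measure, because there are exact
forms which are almost nonnegative on the complex lines and large near such a set: sums of the
derivatives of logarithmic potentials `r² log (|z - x|² + r²)` over the balls of an economical cover.
Finally `θ` is averaged over small diffeomorphisms: the class contains smooth forms which on the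
complex lines are bounded below by a positive constant off an arbitrarily small neighbourhood of a
closed set which `ν₀` does not charge, and by a fixed negative constant everywhere.  So the value of `σ₀`
on `ν₀` is positive if `ν₀` is not zero.  Near the points of the closed totally disconnected set these
diffeomorphisms are translations corrected to first order,
`z ↦ z + y + J(p) (J'(p) y) (z - p) / 2`; they commute with `J` up to an error `o(|y|)` at `p`.
-/

set_option autoImplicit false

open Set Filter Topology MeasureTheory Metric
open scoped Manifold ContDiff ENNReal NNReal

noncomputable section

namespace Pool.Agent.Results.MP_9986fc_gt.LelongNumbers

open Pool.Agent.Y501.SYP Pool.Agent.H819.LGP Pool.Agent.H819.LNP Pool.Agent.H819.HNP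
open Pool.Agent.H819.EMP Pool.Agent.H819.NCP
open Pool.Agent

attribute [local instance] cs

/-- **Lelong numbers and symplectic forms.**  Let `X` be a closed manifold of dimension `d ≥ 2` with
a locally Lipschitz almost complex structure `J`, and let `σ₀` be a smooth closed two-form.

* Each strongly taming form `θ` with locally integrable coefficients which represents the class of
  `σ₀` has locally bounded densities, and the `(d - 2)`-dimensional Hausdorff measure of the set of
  the points where its Lelong number is positive is zero.
* The class of `σ₀` contains a symplectic form taming `J` if and only if it is represented by such
  a form `θ` for which there are a closed totally disconnected set `S`, near which `J` is of class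
  `C^1`, and a chain `C 0 ⊆ C 1 ⊆ … ⊆ C n` of closed sets, such that `C 0` is the union of a finite set
  and of the image of a closed Riemann surface under a simple `J`-holomorphic map `u`, for which the
  class of `u^* σ₀` contains an area form; `C (i + 1) \ C i` is an
  embedded `J`-holomorphic submanifold of `X \ C i` along which some smooth closed form in the class is
  positive, `i < n`; and the set of the points outside `S ∪ C n` with positive Lelong numbers has zero
  two-dimensional Hausdorff measure.
* If `d ≤ 4`, then the class of `σ₀` contains a symplectic form taming `J` if and only if it is
  represented by such a form `θ`. -/
theorem result (d : ℕ) (hd : 2 ≤ d) (X : Type) [TopologicalSpace X] [ChartedSpace (ES d) X]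
    [IsManifold 𝓘(ℝ, ES d) ∞ X] [CompactSpace X] [T2Space X]
    (J : End (ES d) X) (hJ : IsAlmostComplex J) (hJL : LocHolder J 1)
    (σ₀ : Form (ES d) X 2) (h1 : IsSmooth σ₀) (h2 : IsClosedForm σ₀) :
    (∀ θ, Represents (leb d) σ₀ θ → StronglyTames (leb d) θ J → BoundedDensity (leb d) d θ ∧
      HausdorffNull (V := ES d) ((d : ℝ) - 2) {p | lelong (leb d) d θ p ≠ 0}) ∧
    (TamedIn σ₀ J ↔ ∃ θ, Represents (leb d) σ₀ θ ∧ StronglyTames (leb d) θ J ∧
      ∃ S : Set X, IsClosed S ∧ IsTotallyDisconnected S ∧ (∀ p ∈ S, C1At J p) ∧
        ∃ (n : ℕ) (C : ℕ → Set X), NumericalChain σ₀ J n C ∧
          HausdorffNull (V := ES d) 2 {p | p ∉ S ∧ p ∉ C n ∧ lelong (leb d) d θ p ≠ 0}) ∧
    (d ≤ 4 → (TamedIn σ₀ J ↔ ∃ θ, Represents (leb d) σ₀ θ ∧ StronglyTames (leb d) θ J)) :=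
  Pool.Agent.H819.NCP.result_aux hd hJ hJL h1 h2

end Pool.Agent.Results.MP_9986fc_gt.LelongNumbers
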