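import Mathlib
import Pool.Agent.H819.RN.Cor
import Pool.Agent.H819.RN.Pub2

/-!
# Pseudoholomorphic maps with singular fibres: a relative numerical criterion

**Theorem 1.**  Let `X` be a closed manifold with a smooth almost complex structure `J`, let `Y` be a
manifold with a symplectic form `w` taming an almost complex structure `K`, and let `f : X → Y` be a
pseudoholomorphic map each of whose fibres is a closed `J`-holomorphic curve or is empty, up to a set of
zero two-dimensional Hausdorff measure.  The fibres may be singular, reducible or multiple, and nothing is
assumed about the derivative of `f` along them; nothing is integrable.  Then `X` has a symplectic form taming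
`J` (hence compatible with the orientation given by `J`, as in Question 1) if and only if some class in
`H²(X; ℝ)` is positive on each closed `J`-holomorphic curve contained in a fibre, that is, on each
component of each fibre.  For a smooth closed two-form `ζ` the class of `f^* w + t ζ` contains such a form for
all small `t > 0` if and only if `ζ` is positive on these curves.

The manifolds of Question 1 for which Theorem 1 gives symplectic forms are the total spaces of
pseudoholomorphic families of curves, in any dimension and with arbitrary singular fibres, for which the
necessary condition on the degrees of the components of the fibres holds.

In general, let `J` be locally Lipschitz, let `f : X → Y` be a smooth map to a manifold `Y` of any dimension,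
and let `σ` be a smooth closed two-form on `X` with `σ(v, J v) ≥ 0` for all `v`, and `σ(v, J v) = 0` only if
`df(v) = 0`.  The main example is `σ = f^* w` as above.  The fibres of `f` may be singular in any way, and
their dimensions may jump: fibre spaces, branched coverings, blow-downs and other modifications are
included.

* **Theorem 2.**  The class of `σ + t ζ` contains a symplectic form taming `J` for all small `t > 0` if and
  only if it does for some `t > 0`, and if and only if each fibre `F` of `f` is numerically good: there are
  - a chain `C 0 ⊆ … ⊆ C n` of closed sets, where `C 0` is a closed `J`-holomorphic curve (possibly
    singular, reducible or empty) on which `ζ` has positive degrees, together with finitely many points,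
    and `C (i + 1) \ C i` is a `J`-holomorphic submanifold of `X \ C i` along which some form in the class of
    `ζ` is positive, and
  - smooth closed forms `θ i` in the class of `ζ` which are uniformly bounded below on the null vectors of
    `σ` over `F` and whose lower limits on these vectors are positive except over `C n` and over a set of
    zero two-dimensional Hausdorff measure.
* **Theorem 3** (relative Nakai–Moishezon criterion).  Let `J` be smooth, let `σ` vanish on the kernel of
  `df` (as `f^* w` does), and suppose that each fibre of `f` is the union of a closed `J`-holomorphic curve,
  possibly singular, reducible or empty, and of a set of zero two-dimensional Hausdorff measure.  Then the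
  class of `σ + t ζ` contains a symplectic form taming `J` for all small `t > 0` if and only if `ζ` is
  positive on every closed `J`-holomorphic curve contained in a fibre.  So `X` has a symplectic form taming
  `J` if and only if some class in `H²(X; ℝ)` is positive on these curves.

Theorems of this type (Thurston, Gompf, and the earlier results in this library) assume that near each
fibre the class contains a form which is positive on the kernel of `df` (off small sets): this is a
condition on forms, while Theorems 1 and 3 have a condition on the degrees of finitely many curves for each
fibre.

Proof of Theorem 2.  Let `F` be a numerically good fibre.  If no form in the class of `ζ` is positive on the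
null vectors of `σ` over `F`, then by the theorem of Hahn and Banach there is a nonzero closed structure
measure `ν` which is carried by these vectors and is not positive on `ζ`.  Its restrictions to the strata of
the chain and to the complement of `C n` are again closed (the cut-off functions of El Mir and Skoda); the
restriction to a stratum is carried by its tangent vectors, where some form in the class is positive; the
restriction `ν₀` to the complement of `C n` does not charge the sets of zero two-dimensional measure, so
that by the lemma of Fatou the value of `ζ` on `ν₀`, which is the value of each `θ i`, is positive if
`ν₀ ≠ 0`.  This is a contradiction.  So each fibre has a form in the class of `ζ` which is positive on the null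
vectors of `σ` over it, and these forms are glued over `Y`.

Theorem 3 follows, since one can take the constant sequence `θ i = ζ` if `F \ C 0` is a null set; conversely
the restriction of a taming form to a closed curve is positive off finitely many points and can be
made positive there by an exact form.  Theorem 1 is the case `σ = f^* w` of Theorem 3.
-/

set_option autoImplicit false

open Set Filter Topology MeasureTheory Metric
open scoped Manifold ContDiff ENNReal NNReal

noncomputable section

namespace Pool.Agent.Results.MP_9986fc_gt.RelativeNumerical

open Pool.Agent.Y501.SYP Pool.Agent.H819.LGP Pool.Agent.H819.HNP
open Pool.Agent.H819.EMP Pool.Agent.H819.NCP Pool.Agent.H819.RNP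
open Pool.Agent

/-- **Symplectic forms and pseudoholomorphic maps with singular fibres.**  Let `X` be a closed manifold
with a locally Lipschitz almost complex structure `J`, and let `f : X → Y` be a smooth map.

* Let `J` be smooth, let `w` be a symplectic form on `Y` taming `K`, let `f` be pseudoholomorphic, and let
  each fibre of `f` be a closed `J`-holomorphic curve (possibly singular, reducible or empty) up to a set
  of zero two-dimensional Hausdorff measure.  Then the class of `f^* w + t ζ` contains a symplectic form
  taming `J` for all small `t > 0` if and only if `ζ` is positive on each closed `J`-holomorphic curve
  contained in a fibre; and `X` has a symplectic form taming `J` if and only if there is a class with this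
  property.

Let now `σ` be a smooth closed two-form with `σ(v, J v) ≥ 0`, and `= 0` only if `df(v) = 0` (for instance
`f^* w` as above).

* For each smooth closed two-form `ζ`, the class of `σ + t ζ` contains a symplectic form taming `J` for all
  small `t > 0` if and only if it does for one `t > 0`, and if and only if each fibre of `f` is numerically
  good.
* If `J` is smooth, `σ` vanishes on the kernel of `df`, and each fibre of `f` is a closed `J`-holomorphic
  curve up to a set of zero two-dimensional Hausdorff measure, then this is the case if and only if `ζ` is
  positive on each closed `J`-holomorphic curve contained in a fibre; and `X` has a symplectic form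
  taming `J` if and only if there is a class with this property. -/
theorem result (d m : ℕ) (X Y : Type) [TopologicalSpace X] [ChartedSpace (ES d) X]
    [IsManifold 𝓘(ℝ, ES d) ∞ X] [CompactSpace X] [T2Space X]
    [TopologicalSpace Y] [ChartedSpace (ES m) Y] [IsManifold 𝓘(ℝ, ES m) ∞ Y] [T2Space Y]
    [SigmaCompactSpace Y]
    (J : End (ES d) X) (hJ : IsAlmostComplex J) (hJL : LocHolder J 1)
    (f : X → Y) (hf : ContMDiff 𝓘(ℝ, ES d) 𝓘(ℝ, ES m) ∞ f) :
    (SmoothEnd J → (∀ y : Y, IsCurve J (f ⁻¹' {y})) →
      (∀ (K : End (ES m) Y) (w : Form (ES m) Y 2), IsTamingSymplectic w K →
        IsHol (V := ES d) (W := ES m) f J K →
        Nakai f (pull (V := ES m) (W := ES d) f w) J) ∧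
      ∀ σ : Form (ES d) X 2, Semipositive (W := ES m) f σ J → VanishesOnKernel (W := ES m) f σ →
        Nakai f σ J) ∧
    ∀ σ : Form (ES d) X 2, Semipositive (W := ES m) f σ J → Fibrewise f σ J :=
  ⟨fun hJs hF => ⟨fun _ _ hw hol => result_sympl hJ hJL hf hJs hF hw hol,
    fun _ hσ h0 => (result_aux hJ hJL hσ).2 hJs h0 hF⟩,
    fun _ hσ => (result_aux hJ hJL hσ).1⟩

end Pool.Agent.Results.MP_9986fc_gt.RelativeNumerical
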