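import Mathlib
import Pool.Agent.H708.SY.BridgeV

/-!
# Symplectic forms from unbounded primitives on coverings

`X` is a closed manifold with a continuous almost complex structure `J` and a smooth closed
two-form `σ`; `pr : Z → X` is a normal covering with an arbitrary group `G`.

1. The class of `σ` contains a symplectic form taming `J` if and only if there is a sequence of
   smooth one-forms `b n` on `Z` which is asymptotically invariant (the differences
   `g^* (b n) - b n` are locally bounded and tend to zero pointwise; no derivatives are involved)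
   such that the forms `pr^* σ + d (b n)` tame `J` in the limit, pointwise, off countably many
   sets which are small at their own points.
2. For an equivariant family of one-forms `β p` indexed by a `G`-set `P`, which may be unbounded,
   it suffices that the averages of the forms `pr^* σ + d (β p)` over finite sets `F n` tame `J` in
   the limit, if the sets `F n` are Følner sets for a weight which dominates the forms `β p`.
3. The case of balls in the Schreier graph of an orbit, on which `pr^* σ + d (β p)` is uniformly
   taming pointwise off the exceptional sets: the growth of the forms `β p` times the relative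
   growth of the balls has to have lower limit zero.
4. In particular: if `G` has polynomial growth and `β` is a one-form on `Z` of sublinear growth
   along `G` such that `pr^* σ + dβ` is weakly taming and, off the exceptional sets, pointwise
   uniformly taming along the orbits of `G`, then the class of `σ` contains a symplectic form
   taming `J`. Neither `β` nor any derivative of `β` is assumed to be bounded.
5. The condition in 3 holds if the balls have at most `exp (ψ n)` elements and the growth function
   times the increments of `ψ` tends to zero (for example growth at most `exp (n ^ a)` and one-forms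
   of growth `o (n ^ (1 - a))`).

The definitions are in `Pool/Agent/H708/SY/PubV.lean`, and in the modules `Pub`, `PubA`, `PubU` and
`PubT` of `Pool/Graph/R_seed8/Y501/SY` (forms, almost complex structures, taming, small sets, normal
coverings).
-/

set_option autoImplicit false

open Set Filter Topology
open scoped Manifold ContDiff

namespace Pool.Agent.Results.MP_9986fc_gt.SublinearPrimitives

open Pool.Agent.Y501.SYP Pool.Agent.H708.SYC

theorem result (d : ℕ) (Z X : Type) [TopologicalSpace Z] [ChartedSpace (ES d) Z]
    [TopologicalSpace X] [ChartedSpace (ES d) X] [IsManifold 𝓘(ℝ, ES d) ∞ X] [CompactSpace X]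
    [T2Space X] (G : Type) [Group G] [MulAction G Z] (pr : Z → X)
    (hpr : NormalCovering (ES d) G pr) (J : End (ES d) X) (hJ : IsAlmostComplex J)
    (σ : Form (ES d) X 2) (hσ : IsSmooth σ) (hσc : IsClosedForm σ) :
    -- 1. asymptotically invariant primitives
    (ClassTamed σ J ↔ ∃ (b : ℕ → Form (ES d) Z 1) (c : ℕ → Form (ES d) Z 2) (N : ℕ → Set X),
      (∀ n, Primitive (b n) (c n)) ∧ AsympInvariant G pr b ∧ SmallSets J N ∧
      TamesInLimit pr J (fun n => addF (lift pr σ) (c n)) N) ∧
    -- 2. averages over weighted Følner sets
    (∀ S : Set G, Submonoid.closure S = ⊤ → (∀ s ∈ S, s⁻¹ ∈ S) →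
      ∀ (P : Type) [MulAction G P] (β : P → Form (ES d) Z 1) (η : P → Form (ES d) Z 2),
      EquivFamily G β η → ∀ (h : P → ℝ) (F : ℕ → Finset P), WeightedFolner S h F →
      Dominated pr β h → ∀ N : ℕ → Set X, SmallSets J N →
      TamesInLimit pr J (fun n => addF (lift pr σ) (avg (F n) η)) N → ClassTamed σ J) ∧
    -- 3. balls in Schreier graphs
    (∀ S : Finset G, Generates S →
      ∀ (P : Type) [MulAction G P] (β : P → Form (ES d) Z 1) (η : P → Form (ES d) Z 2),
      EquivFamily G β η → ∀ (p₀ : P) (h : ℕ → ℝ), SlowGrowth (fun n => (ball S p₀ n).ncard) h →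
      BallDominated S p₀ pr β h → ∀ N : ℕ → Set X, SmallSets J N →
      FamilyTames G p₀ pr J (fun p => addF (lift pr σ) (η p)) N → ClassTamed σ J) ∧
    -- 4. sublinear primitives on coverings of polynomial growth
    (∀ S : Finset G, Generates S → ∀ (A : ℝ) (D : ℕ),
      (∀ n : ℕ, ((ball S (1 : G) n).ncard : ℝ) ≤ A * ((n : ℝ) + 1) ^ D) →
      ∀ (β : Form (ES d) Z 1) (η : Form (ES d) Z 2), Primitive β η →
      ∀ h : ℕ → ℝ, Tendsto (fun n => h n / n) atTop (𝓝 0) → GrowthAt S pr β h →
      ∀ N : ℕ → Set X, SmallSets J N → OrbitTames G pr J (addF (lift pr σ) η) N →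
      ClassTamed σ J) ∧
    -- 5. the growth condition
    (∀ (a : ℕ → ℕ) (h ψ : ℕ → ℝ), (∀ n, 1 ≤ a n) → (∀ n, (a n : ℝ) ≤ Real.exp (ψ n)) →
      Tendsto ψ atTop atTop → (∀ n, 1 ≤ h n) →
      Tendsto (fun n => h (n + 1) * (ψ (n + 1) - ψ n)) atTop (𝓝 0) → SlowGrowth a h) := by
  refine ⟨part1 hpr hJ hσ hσc, ?_, ?_, ?_, ?_⟩
  · intro S hS hSi P _ β η hf h F hF hd N hN hlim
    exact part2 hpr hJ hσ hσc hS hSi hf hF hd hN hlim
  · intro S hS P _ β η hf p₀ h hg hd N hN hpos
    exact part3 hpr hJ hσ hσc hS hf p₀ hg hd hN hpos
  · intro S hS A D hA β η hβ h hl hd N hN hpos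
    exact part4 hpr hJ hσ hσc hS hA hβ hl hd hN hpos
  · intro a h ψ ha haψ hψ hh hl
    exact Pool.Agent.H708.SYB.slow_of_exp ha haψ hψ hh hl

end Pool.Agent.Results.MP_9986fc_gt.SublinearPrimitives
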