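import Mathlib
import Pool.Agent.H819.LG.Br

/-!
# Symplectic forms from closed two-forms with integrable coefficients and small density

`X` is a closed manifold of dimension `d`, `J` a continuous field of endomorphisms of the tangent
spaces (for instance an almost complex structure) and `σ₀` a smooth closed two-form, which stands
for a class in `H²(X; ℝ)`.  The theorem characterizes when this class contains a symplectic form
taming `J`, by closed two-forms `θ` whose coefficients are merely integrable: `θ` represents the
class if `θ - σ₀ = dα` in the sense of distributions with a locally integrable one-form `α`.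

`θ` is strongly taming if almost everywhere `θ(u, J u) ≥ c₀ |u|²` and
`θ(u, w)² ≤ C θ(u, J u) θ(w, J w)`, locally uniformly.  (If `J² = -1` and `θ` is invariant under
`J`, then the second condition holds with `C = 1`, see `LG.stronglyTames_of_invariant`.)  The
coefficients may be unbounded near every point.  Strong taming alone is not enough for the
existence of a symplectic form in the class: on a Moishezon manifold which is not Kähler there are
strongly taming forms `θ` of type `(1, 1)`, smooth outside a submanifold and with bounded density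
`ρ^(2 - d) ∫_{B(z, ρ)} |θ|`, in classes which contain no symplectic form taming the complex
structure.  The theorem says that the density is the only obstruction.

It is enough that it is small *at one scale* `ρ`: if `J'` is a bounded measurable field of
endomorphisms, `θ(u, J' u) ≥ c₀ |u|²`, `θ(u, w)² ≤ C θ(u, J' u) θ(w, J' w)` and
`∫_{B(z, ρ)} (ρ + |J' - J(z)|)² |θ| ≤ ε c₀ ρ^d` for all `z`, then the class contains a symplectic
form taming `J`.  Here `ε > 0` and the upper bound for the scale `ρ` depend only on the charts, on
`C` and on a bound `M` for `J` and `J'`, but neither on `θ` nor on the class nor on the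
modulus of continuity of `J`.

The critical Lebesgue exponents are `θ ∈ L^∞` for continuous `J`, and `θ ∈ L^(d / (2 a))` if `J` is
Hölder continuous with exponent `a`; so `θ ∈ L^n` if `J` is Lipschitz and `d = 2 n`.

The proof averages the forms of the class over pull-backs by small diffeomorphisms.  The
Cauchy-Schwarz inequality turns the error terms, which come from the failure of the diffeomorphisms
to be pseudoholomorphic, into one half of the main term and the density.
-/

set_option autoImplicit false

open Set Filter Topology MeasureTheory Metric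
open scoped Manifold ContDiff ENNReal NNReal

noncomputable section

namespace Pool.Agent.Results.MP_9986fc_gt.VanishingDensity

open Pool.Agent.Y501.SYP Pool.Agent.H819.LGP
open Pool.Agent

attribute [local instance] cs

/-- **Symplectic forms from closed two-forms with integrable coefficients.**  Let `X` be a closed
manifold of dimension `d`, covered by compact pieces `K i ⊆ N i` of charts.  There are functions
`ε > 0` and `ρ₀ > 0` of two variables such that for each continuous field `J` of endomorphisms of
the tangent spaces and each smooth closed two-form `σ₀` the following are equivalent: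

* the class of `σ₀` contains a symplectic form taming `J`;
* it is represented by a locally bounded strongly taming form `θ`;
* it is represented by a strongly taming form `θ` with locally integrable coefficients and
  vanishing density;
* it is represented by a form `θ` with locally integrable coefficients which satisfies
  `θ(u, J' u) ≥ c₀ |u|²`, `θ(u, w)² ≤ C θ(u, J' u) θ(w, J' w)` almost everywhere and
  `∫_{B(z, ρ)} (ρ + |J' - J(z)|)² |θ| ≤ ε(C, M) c₀ ρ^d` for one scale `ρ ≤ ρ₀(C, M)`, where `J'` is
  a measurable field of endomorphisms and `J`, `J'` are bounded by `M`;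

and if `d ≥ 2` and `J` is locally Hölder continuous with exponent `a`:

* it is represented by a strongly taming form `θ` which is locally in `L^(d / (2 a))`. -/
theorem result (d : ℕ) (X : Type) [TopologicalSpace X] [ChartedSpace (ES d) X]
    [IsManifold 𝓘(ℝ, ES d) ∞ X] [CompactSpace X] [T2Space X] (n : ℕ) (x : Fin n → X)
    (K N : Fin n → Set (ES d)) (hcov : IsCover x K N) :
    ∃ ε ρ₀ : ℝ → ℝ → ℝ, (∀ C M, 0 < ε C M ∧ 0 < ρ₀ C M) ∧
    ∀ (J : End (ES d) X), ContEnd J →
    ∀ σ₀ : Form (ES d) X 2, IsSmooth σ₀ → IsClosedForm σ₀ →
    List.TFAE [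
      TamedIn σ₀ J,
      ∃ θ, Represents (leb d) σ₀ θ ∧ StronglyTames (leb d) θ J ∧ LocLp (leb d) θ ⊤,
      ∃ θ, Represents (leb d) σ₀ θ ∧ StronglyTames (leb d) θ J ∧
        VanishingDensity (leb d) d θ J,
      ∃ (θ : Form (ES d) X 2) (J' : End (ES d) X) (C M c₀ ρ : ℝ), Represents (leb d) σ₀ θ ∧
        0 ≤ C ∧ 0 < c₀ ∧ 0 < ρ ∧ ρ ≤ ρ₀ C M ∧
        SmallAt (leb d) x K N J J' θ C M c₀ ρ (ε C M * c₀ * ρ ^ d)] ∧
    (2 ≤ d → ∀ a : ℝ, 0 < a → a ≤ 1 → LocHolder J a →
      (TamedIn σ₀ J ↔ ∃ θ, Represents (leb d) σ₀ θ ∧ StronglyTames (leb d) θ J ∧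
        LocLp (leb d) θ (ENNReal.ofReal (d / (2 * a))))) := by
  have hm : IsManifold (𝓡 d) ∞ X := (inferInstance : IsManifold 𝓘(ℝ, ES d) ∞ X)
  obtain ⟨ε, ρ₀, hpos, h⟩ := H819.LG.criterion d X n x K N ((cover_iff x K N).1 hcov)
  refine ⟨ε, ρ₀, hpos, fun J hJ σ₀ hσ hcl => ?_⟩
  have h1 := h J hJ σ₀ ((smooth_iff σ₀).1 hσ) ((closed_iff σ₀).1 hcl)
  have e4 : (∃ (θ : Form (ES d) X 2) (J' : End (ES d) X) (C M c₀ ρ : ℝ),
        Represents (leb d) σ₀ θ ∧ 0 ≤ C ∧ 0 < c₀ ∧ 0 < ρ ∧ ρ ≤ ρ₀ C M ∧
        SmallAt (leb d) x K N J J' θ C M c₀ ρ (ε C M * c₀ * ρ ^ d)) ↔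
      ∃ (θ : Form (ES d) X 2) (J' : End (ES d) X) (C M c₀ ρ : ℝ),
        H819.LG.Represents (d := d) (X := X) σ₀ θ ∧ 0 ≤ C ∧ 0 < c₀ ∧ 0 < ρ ∧ ρ ≤ ρ₀ C M ∧
        H819.LG.SmallAt (d := d) (X := X) x K N J J' θ C M c₀ ρ (ε C M) := by
    refine exists_congr fun θ => exists_congr fun J' => exists_congr fun C =>
      exists_congr fun M => exists_congr fun c₀ => exists_congr fun ρ => ?_
    rw [rep_iff, smallAt_iff]
  rw [e4]
  simp only [tamed_iff, rep_iff, strong_iff, lp_iff, vanish_iff, holder_iff]
  exact h1

end Pool.Agent.Results.MP_9986fc_gt.VanishingDensity
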